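import Pool.Agent.H99.DL.Df
import Pool.Agent.H99.HP.Asm

/-!
# Theorem D+ (MP_8923e7_nt): assembly, from dense cliques (`Fin/DenseCliques`) and `CorD`
-/

namespace Pool.Agent.H99.DL

open Finset Filter Pool.Agent.H99.HP

open Pool.Agent.H99.Fin.DenseCliques (countIn countMono AlmostAll)

open Classical in
/-- `G a` for all but at most `ε L^k` of the `a ∈ [1, L]^k` -/
def MostB (k L : ℕ) (ε : ℝ) (G : (Fin k → ℕ) → Prop) : Prop :=
  (((box k L).filter fun a => ¬ G a).card : ℝ) ≤ ε * (L : ℝ) ^ k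

/-- the transfer -/
theorem transferD (k Q R : ℕ) (ε γ e : ℝ) (hR : 0 < R) (hQ : 0 < Q) (he : e * (R : ℝ) ^ (k + 1) < γ) (L : ℕ)
    (hL : 0 < L) (S : Finset ℕ) (bad : (Fin (k + 1) → ℕ) → Prop) [DecidablePred bad]
    (H : ∀ A : Finset (Fin k → ℕ), A ⊆ box k L → ε * (L : ℝ) ^ k ≤ A.card →
        ∃ m, 1 ≤ m ∧ m ≤ R ∧ γ * (L : ℝ) ^ (k + 1) ≤ (cnfD m S A).card)
    (hbad : (((Fintype.piFinset fun _ : Fin (k + 1) => S).filter bad).card : ℝ) ≤ e * ((R * L : ℕ) : ℝ) ^ (k + 1))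
    (G : ℕ → (Fin k → ℕ) → Prop)
    (hG : ∀ t ∈ S, ∀ (m : ℕ) (a : Fin k → ℕ), (∀ i, t + m * a i ∈ S) → ¬ G (Q * m) a →
      bad (Fin.cons t fun i => t + m * a i)) :
    MostB k L ε fun a => ∃ m, 1 ≤ m ∧ m ≤ Q * R ∧ G m a := by
  classical
  unfold MostB
  obtain ⟨A, hA⟩ : ∃ A : Finset (Fin k → ℕ), A = (box k L).filter fun a => ¬ ∃ m, 1 ≤ m ∧ m ≤ Q * R ∧ G m a :=
    ⟨_, rfl⟩
  have hcard : ((box k L).filter fun a => ¬ ∃ m, 1 ≤ m ∧ m ≤ Q * R ∧ G m a).card = A.card := by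
    rw [hA]
  rw [hcard]
  by_contra hcon
  have h4 : ε * (L : ℝ) ^ k ≤ A.card := (lt_of_not_ge hcon).le
  obtain ⟨m, hm1, hm2, h5⟩ := H A (by rw [hA]; exact filter_subset _ _) h4
  have h6 : (cnfD m S A).card ≤ ((Fintype.piFinset fun _ : Fin (k + 1) => S).filter bad).card := by
    apply card_le_card_of_injOn (fun z => (Fin.cons z.1 fun i => z.1 + m * z.2 i : Fin (k + 1) → ℕ))
    · intro z hz
      unfold cnfD at hz
      rw [mem_coe, mem_filter, mem_product] at hz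
      obtain ⟨⟨h7, h8⟩, h9⟩ := hz
      rw [mem_coe, mem_filter, Fintype.mem_piFinset]
      rw [hA, mem_filter] at h8
      refine ⟨fun i => ?_, hG z.1 h7 m z.2 h9 fun hg => h8.2 ⟨Q * m, Nat.mul_pos hQ hm1, Nat.mul_le_mul_left _ hm2, hg⟩⟩
      refine Fin.cases ?_ (fun i => ?_) i
      · exact h7
      · show (Fin.cons z.1 fun i => z.1 + m * z.2 i : Fin (k + 1) → ℕ) i.succ ∈ S
        rw [Fin.cons_succ]
        exact h9 i
    · intro z _ w _ hzw
      have h7 := congrFun hzw 0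
      simp only [Fin.cons_zero] at h7
      refine Prod.ext h7 (funext fun i => ?_)
      have h8 := congrFun hzw i.succ
      simp only [Fin.cons_succ] at h8
      exact Nat.eq_of_mul_eq_mul_left hm1 (by omega)
  have h7 : ((cnfD m S A).card : ℝ) ≤ e * ((R * L : ℕ) : ℝ) ^ (k + 1) := le_trans (by exact_mod_cast h6) hbad
  have h8 : (0 : ℝ) < (L : ℝ) ^ (k + 1) := by positivity
  have h9 : e * ((R * L : ℕ) : ℝ) ^ (k + 1) = e * (R : ℝ) ^ (k + 1) * (L : ℝ) ^ (k + 1) := by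
    push_cast
    ring
  rw [h9] at h7
  nlinarith

open Classical in
/-- **Theorem D+.** -/
theorem mainD (hC : CorD) (k r : ℕ) (α ε : ℝ) (hr : 1 ≤ r) (hα : 0 < α) (hα1 : α ≤ 1) (hε : 0 < ε)
    (hε1 : ε ≤ 1) :
    ∃ (M K : ℕ) (c C δ : ℝ) (L₀ X₀ : ℕ), 0 < c ∧ 0 < C ∧ 0 < δ ∧
      ∀ X L : ℕ, X₀ ≤ X → L₀ ≤ L → (L : ℝ) ≤ (X : ℝ) ^ δ →
        (∀ χ : ℕ → Fin r, MostB k L ε fun a => ∃ m, 1 ≤ m ∧ m ≤ M ∧ ∃ i : Fin r,
            c * (min 1 ((L : ℝ) / Real.log X)) ^ K * (X / Real.log X ^ (k + 1)) ≤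
              count X {p : ℕ | p.Prime ∧ χ p = i} fun j => m * a j) ∧
        (C * Real.log X ≤ L → ∀ A : Finset ℕ, (∀ p ∈ A, p.Prime ∧ p ≤ X) → α * X / Real.log X ≤ A.card →
          MostB k L ε fun a => ∃ m, 1 ≤ m ∧ m ≤ M ∧
            c * (X / Real.log X ^ (k + 1)) ≤ count X A fun j => m * a j) := by
  have hr0 : (0 : ℝ) < r := by exact_mod_cast hr
  have hr1 : (1 : ℝ) ≤ r := by exact_mod_cast hr
  obtain ⟨d, hd⟩ : ∃ d : ℝ, d = min (13 / (100 * (r : ℝ))) (13 * α / 100) := ⟨_, rfl⟩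
  have hd0 : 0 < d := by
    rw [hd]
    positivity
  have hd1 : d ≤ 1 := by
    rw [hd]
    refine (min_le_right _ _).trans ?_
    linarith
  obtain ⟨R, γ, L1, hR, hγ, hcor⟩ := hC k d ε hd0 hd1 hε hε1
  have hR0 : (0 : ℝ) < R := by exact_mod_cast hR
  have hR1 : (1 : ℝ) ≤ R := by exact_mod_cast hR
  obtain ⟨e, he⟩ : ∃ e : ℝ, e = min (min (13 / (100 * (r : ℝ))) (13 * α / 100)) (γ / (2 * (R : ℝ) ^ (k + 1))) := ⟨_, rfl⟩
  have he0 : 0 < e := by
    rw [he]
    positivity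
  have he1 : e ≤ 13 / (100 * r) := by
    rw [he]
    exact (min_le_left _ _).trans (min_le_left _ _)
  have he2 : e ≤ 13 * α / 100 := by
    rw [he]
    exact (min_le_left _ _).trans (min_le_right _ _)
  have he3 : e * (R : ℝ) ^ (k + 1) < γ := by
    have h1 : e ≤ γ / (2 * (R : ℝ) ^ (k + 1)) := by
      rw [he]
      exact min_le_right _ _
    have h2 : e * (R : ℝ) ^ (k + 1) ≤ γ / (2 * (R : ℝ) ^ (k + 1)) * (R : ℝ) ^ (k + 1) :=
      mul_le_mul_of_nonneg_right h1 (by positivity)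
    have h3 : γ / (2 * (R : ℝ) ^ (k + 1)) * (R : ℝ) ^ (k + 1) = γ / 2 := by field_simp
    linarith
  have he4 : e ≤ 1 := by linarith
  obtain ⟨K, q, hq, hcl⟩ := Pool.Agent.H99.Fin.DenseCliques.result (k + 1) r α e (by omega) hr hα hα1 he0
  obtain ⟨c, C, δ, L2, X2, hc, hCC, hδ, hcl⟩ := hcl q hq dvd_rfl
  have hq0 : (0 : ℝ) < q := by exact_mod_cast hq
  obtain ⟨δ', hδ'⟩ : ∃ δ' : ℝ, δ' = min (δ / 2) (1 / 4) := ⟨_, rfl⟩
  have hδ'0 : 0 < δ' := by
    rw [hδ']
    positivity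
  have hδ'1 : 2 * δ' ≤ δ := by
    have : δ' ≤ δ / 2 := by
      rw [hδ']
      exact min_le_left _ _
    linarith
  have hδ'2 : 2 * δ' ≤ 1 / 2 := by
    have : δ' ≤ 1 / 4 := by
      rw [hδ']
      exact min_le_right _ _
    linarith
  obtain ⟨X3, hX3⟩ := eventually_small (K + k + 1) (c / (2 * r)) (by positivity)
  obtain ⟨X4, hX4⟩ : ∃ X4 : ℕ, ∀ X : ℕ, X4 ≤ X → ((q * R : ℕ) : ℝ) ≤ (X : ℝ) ^ δ' := by
    have h1 := (tendsto_rpow_atTop hδ'0).eventually_ge_atTop ((q * R : ℕ) : ℝ)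
    obtain ⟨x1, hx1⟩ := eventually_atTop.1 h1
    obtain ⟨X1, hX1⟩ := exists_nat_ge x1
    exact ⟨X1, fun X hX => hx1 X (hX1.trans (by exact_mod_cast hX))⟩
  refine ⟨q * R, K, c / (2 * r), C, δ', L1 + L2 + 1, max (max X2 X3) X4, by positivity, hCC, hδ'0,
    fun X L hX hL hLX => ?_⟩
  have a1 : X2 ≤ X := ((le_max_left _ _).trans (le_max_left _ _)).trans hX
  have a2 : X3 ≤ X := ((le_max_right _ _).trans (le_max_left _ _)).trans hX
  have a3 : X4 ≤ X := (le_max_right _ _).trans hX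
  obtain ⟨hlog, hbig⟩ := hX3 X a2
  have hqR := hX4 X a3
  have hlog0 : 0 < Real.log X := by linarith
  have hX1 : (1 : ℝ) ≤ X := by
    by_contra h
    push Not at h
    have := Real.log_nonpos (Nat.cast_nonneg X) h.le
    linarith
  have hX0 : (0 : ℝ) < X := by linarith
  have hL0 : 0 < L := by omega
  have hL1 : (1 : ℝ) ≤ L := by exact_mod_cast hL0
  have hRL1 : (L : ℝ) ≤ ((R * L : ℕ) : ℝ) := by
    push_cast
    nlinarith
  have hqRL : ((q * (R * L) : ℕ) : ℝ) ≤ (X : ℝ) ^ (2 * δ') := by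
    have h1 : ((q * (R * L) : ℕ) : ℝ) = ((q * R : ℕ) : ℝ) * L := by
      push_cast
      ring
    rw [h1, two_mul, Real.rpow_add hX0]
    exact mul_le_mul hqR hLX (by positivity) (by positivity)
  have hRLX : ((R * L : ℕ) : ℝ) ≤ (X : ℝ) ^ δ := by
    have h1 : ((R * L : ℕ) : ℝ) ≤ ((q * (R * L) : ℕ) : ℝ) := by
      exact_mod_cast Nat.le_mul_of_pos_left _ hq
    exact h1.trans (hqRL.trans (Real.rpow_le_rpow_of_exponent_le hX1 hδ'1))
  have hhalf : ((q * (R * L) : ℕ) : ℝ) ≤ (X : ℝ) ^ (1 / 2 : ℝ) :=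
    hqRL.trans (Real.rpow_le_rpow_of_exponent_le hX1 hδ'2)
  obtain ⟨m1, hm1⟩ : ∃ m1 : ℝ, m1 = min 1 ((L : ℝ) / Real.log X) := ⟨_, rfl⟩
  obtain ⟨m2, hm2⟩ : ∃ m2 : ℝ, m2 = min 1 (((R * L : ℕ) : ℝ) / Real.log X) := ⟨_, rfl⟩
  have hm1a : 1 / Real.log X ≤ m1 := by
    rw [hm1, le_min_iff]
    constructor
    · rw [div_le_one hlog0]
      exact hlog
    · gcongr
  have hm1b : m1 ≤ 1 := by
    rw [hm1]
    exact min_le_left _ _
  have hm10 : 0 < m1 := lt_of_lt_of_le (by positivity) hm1a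
  have hm12 : m1 ≤ m2 := by
    rw [hm1, hm2]
    apply min_le_min le_rfl
    gcongr
  obtain ⟨Y, hY⟩ : ∃ Y : ℝ, Y = X / Real.log X ^ (k + 1) := ⟨_, rfl⟩
  have hY0 : 0 < Y := by
    rw [hY]
    positivity
  -- the error term
  have herr : ((q * (R * L) : ℕ) : ℝ) ≤ c / (2 * r) * m1 ^ K * Y := by
    refine hhalf.trans (hbig.trans ?_)
    rw [mul_assoc]
    apply mul_le_mul_of_nonneg_left _ (by positivity)
    calc (X : ℝ) / Real.log X ^ (K + k + 1) = (1 / Real.log X) ^ K * Y := by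
          rw [hY, div_pow, one_pow, add_assoc, pow_add]
          field_simp
      _ ≤ m1 ^ K * Y := by gcongr
  have hge : (13 : ℝ) / (50 * r) = 2 * (13 / (100 * r)) := by ring
  have hU : e * ((R * L : ℕ) : ℝ) ≤ ((Icc 1 (R * L)).card : ℝ) := by
    rw [Nat.card_Icc, Nat.add_sub_cancel]
    have : (0 : ℝ) ≤ ((R * L : ℕ) : ℝ) := Nat.cast_nonneg _
    nlinarith
  have hRL2 : L2 ≤ R * L := by
    have : L ≤ R * L := Nat.le_mul_of_pos_left _ hR
    omega
  constructor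
  · intro χ
    obtain ⟨S, hS, hSc, hS2⟩ := (hcl X (R * L) a1 hRL2 hRLX (Icc 1 (R * L)) (Subset.refl _) hU).1 χ
    rw [Nat.card_Icc, Nat.add_sub_cancel] at hSc
    unfold AlmostAll at hS2
    have hSd : d * ((R * L : ℕ) : ℝ) ≤ S.card := by
      refine le_trans ?_ hSc
      apply mul_le_mul_of_nonneg_right _ (by positivity)
      have h3 : d ≤ 13 / (100 * r) := by
        rw [hd]
        exact min_le_left _ _
      rw [hge]
      linarith
    have h1 := transferD k q R ε γ e hR hq he3 L hL0 S _ (hcor L (by omega) S hS hSd) hS2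
      (fun m a => ∃ i : Fin r, c / (2 * r) * m1 ^ K * Y ≤ count X {p : ℕ | p.Prime ∧ χ p = i} fun j => m * a j) (by
        intro t ht m b _ hG
        push Not at hG
        have ht1 : t ≤ R * L := (mem_Icc.1 (hS ht)).2
        have ht2 : q * t ≤ q * (R * L) := Nat.mul_le_mul_left q ht1
        have h3 : (countMono X q χ (Fin.cons t fun i => t + m * b i) : ℝ) ≤
            ∑ i : Fin r, ((count X {p : ℕ | p.Prime ∧ χ p = i} (fun j => q * (m * b j)) : ℝ) + ((q * (R * L) : ℕ) : ℝ)) := by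
          have h4 := (countMono_le X q χ (Fin.cons t fun i => t + m * b i)).trans
            (sum_le_sum fun i _ => countIn_le X q (q * (R * L)) {p : ℕ | p.Prime ∧ χ p = i} t (fun j => m * b j) ht2)
          exact_mod_cast h4
        refine lt_of_le_of_lt h3 ?_
        have hne : (univ : Finset (Fin r)).Nonempty := ⟨⟨0, hr⟩, mem_univ _⟩
        calc ∑ i : Fin r, ((count X {p : ℕ | p.Prime ∧ χ p = i} (fun j => q * (m * b j)) : ℝ) + ((q * (R * L) : ℕ) : ℝ))
            < ∑ _i : Fin r, (c / r * m1 ^ K * Y) := by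
              apply sum_lt_sum_of_nonempty hne
              intro i _
              have h5 := hG i
              have h6 : c / r * m1 ^ K * Y = c / (2 * r) * m1 ^ K * Y + c / (2 * r) * m1 ^ K * Y := by
                field_simp
                ring
              have h7 : (fun j => q * m * b j) = fun j => q * (m * b j) := funext fun j => mul_assoc _ _ _
              rw [h7] at h5
              rw [h6]
              exact add_lt_add_of_lt_of_le h5 herr
          _ = c * m1 ^ K * Y := by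
              rw [sum_const, card_univ, Fintype.card_fin, nsmul_eq_mul]
              field_simp
          _ ≤ c * m2 ^ K * Y := by gcongr
          _ = _ := by rw [hm2, hY])
    rw [← hm1, ← hY]
    exact h1
  · intro hCL A hA hAc
    obtain ⟨S, hS, hSc, hS2⟩ := (hcl X (R * L) a1 hRL2 hRLX (Icc 1 (R * L)) (Subset.refl _) hU).2
      (hCL.trans hRL1) A hA hAc
    rw [Nat.card_Icc, Nat.add_sub_cancel] at hSc
    unfold AlmostAll at hS2
    have hSd : d * ((R * L : ℕ) : ℝ) ≤ S.card := by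
      refine le_trans ?_ hSc
      apply mul_le_mul_of_nonneg_right _ (by positivity)
      have h3 : d ≤ 13 * α / 100 := by
        rw [hd]
        exact min_le_right _ _
      linarith
    have h1 := transferD k q R ε γ e hR hq he3 L hL0 S _ (hcor L (by omega) S hS hSd) hS2
      (fun m a => c / (2 * r) * Y ≤ count X A fun j => m * a j) (by
        intro t ht m b _ hG
        push Not at hG
        have ht1 : t ≤ R * L := (mem_Icc.1 (hS ht)).2
        have ht2 : q * t ≤ q * (R * L) := Nat.mul_le_mul_left q ht1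
        have h3 : (countIn X q (A : Set ℕ) (Fin.cons t fun i => t + m * b i) : ℝ) ≤
            (count X (A : Set ℕ) (fun j => q * (m * b j)) : ℝ) + ((q * (R * L) : ℕ) : ℝ) := by
          exact_mod_cast countIn_le X q (q * (R * L)) (A : Set ℕ) t (fun j => m * b j) ht2
        refine lt_of_le_of_lt h3 ?_
        rw [← hY]
        have h4 : c / (2 * r) ≤ c / 2 := by
          apply div_le_div_of_nonneg_left hc.le (by norm_num)
          linarith
        have h5 : m1 ^ K ≤ 1 := pow_le_one₀ hm10.le hm1b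
        have h7 : c / (2 * r) * m1 ^ K * Y ≤ c / 2 * Y := by
          apply mul_le_mul_of_nonneg_right _ hY0.le
          have h8 : 0 < c / (2 * r) := by positivity
          have h9 : 0 < m1 ^ K := by positivity
          nlinarith
        have h8 : (fun j => q * m * b j) = fun j => q * (m * b j) := funext fun j => mul_assoc _ _ _
        rw [h8] at hG
        calc (count X (A : Set ℕ) (fun j => q * (m * b j)) : ℝ) + ((q * (R * L) : ℕ) : ℝ) < c / (2 * r) * Y + c / 2 * Y :=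
              add_lt_add_of_lt_of_le hG (herr.trans h7)
          _ ≤ c / 2 * Y + c / 2 * Y := by gcongr
          _ = c * Y := by ring)
    rw [← hY]
    exact h1

end Pool.Agent.H99.DL
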