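import Pool.Agent.H99.DL.Df
import Pool.Agent.H96.BH.DfD

/-!
# Theorem D+ (MP_8923e7_nt): the two forms of `CorD`
-/

namespace Pool.Agent.H99.DL

open Finset Pool.Agent.H99.HP

theorem corD_of (h : Pool.Agent.H96.BH.CorD) : CorD := by
  classical
  intro k d ε hd hd1 hε hε1
  obtain ⟨M, γ, L₀, hM, hγ, H⟩ := h k d ε hd hd1 hε hε1
  refine ⟨M, γ, L₀, hM, hγ, fun L hL S hS hSd A hA hAc => ?_⟩
  have h1 := H L hL S hS hSd A hA hAc
  have hM1 : (1 : ℝ) ≤ M := by exact_mod_cast hM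
  have h2 : (cnf S (Pool.Agent.H96.BH.dil M A)).card ≤ ∑ m ∈ Icc 1 M, (cnfD m S A).card := by
    have h3 : cnf S (Pool.Agent.H96.BH.dil M A) ⊆ (Icc 1 M).biUnion fun m =>
        (cnfD m S A).image fun z => (z.1, fun i => m * z.2 i) := by
      intro z hz
      unfold cnf at hz
      rw [mem_filter, mem_product] at hz
      obtain ⟨⟨h4, h5⟩, h6⟩ := hz
      unfold Pool.Agent.H96.BH.dil at h5
      rw [mem_image] at h5
      obtain ⟨w, hw1, hw2⟩ := h5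
      rw [mem_product] at hw1
      rw [mem_biUnion]
      refine ⟨w.1, hw1.1, ?_⟩
      rw [mem_image]
      refine ⟨(z.1, w.2), ?_, ?_⟩
      · unfold cnfD
        rw [mem_filter, mem_product]
        refine ⟨⟨h4, hw1.2⟩, fun i => ?_⟩
        have h7 := h6 i
        rw [← hw2] at h7
        exact h7
      · exact Prod.ext rfl hw2
    refine (card_le_card h3).trans (card_biUnion_le.trans ?_)
    exact sum_le_sum fun m _ => card_image_le
  by_contra hcon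
  push Not at hcon
  have h3 : ∑ m ∈ Icc 1 M, ((cnfD m S A).card : ℝ) < ∑ _m ∈ Icc 1 M, γ * (L : ℝ) ^ (k + 1) := by
    apply sum_lt_sum_of_nonempty
    · exact ⟨1, mem_Icc.2 ⟨le_rfl, hM⟩⟩
    · intro m hm
      rw [mem_Icc] at hm
      exact hcon m hm.1 hm.2
  have h4 : ∑ _m ∈ Icc 1 M, γ * (L : ℝ) ^ (k + 1) = M * (γ * (L : ℝ) ^ (k + 1)) := by
    rw [sum_const, Nat.card_Icc, Nat.add_sub_cancel, nsmul_eq_mul]
  have h5 : ((cnf S (Pool.Agent.H96.BH.dil M A)).card : ℝ) ≤ ∑ m ∈ Icc 1 M, ((cnfD m S A).card : ℝ) := by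
    exact_mod_cast h2
  have h6 : (M : ℝ) * (γ * (L : ℝ) ^ (k + 1)) ≤ γ * ((M * L : ℕ) : ℝ) ^ (k + 1) := by
    push_cast
    rw [mul_pow]
    have h7 : (M : ℝ) ≤ (M : ℝ) ^ (k + 1) := le_self_pow₀ hM1 (by omega)
    have h8 : 0 ≤ γ * (L : ℝ) ^ (k + 1) := by positivity
    calc (M : ℝ) * (γ * (L : ℝ) ^ (k + 1)) ≤ (M : ℝ) ^ (k + 1) * (γ * (L : ℝ) ^ (k + 1)) :=
          mul_le_mul_of_nonneg_right h7 h8
      _ = γ * ((M : ℝ) ^ (k + 1) * (L : ℝ) ^ (k + 1)) := by ring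
  linarith

end Pool.Agent.H99.DL
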