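import Pool.Agent.H61.HB.FtB
import Pool.Agent.H61.HB.FtD

/-!
# Theorem D+ (MP_8923e7_nt): bounded dilations at every scale, definitions and interface

`box k L = [1, L]^k`; `TT f A m = ∑_(a ∈ A) ∑_t f(t) ∏_l f(t + m a_l)`.

`GK` (generic Khintchine theorem): for `k, δ, ε` there are `R`, `L₀` such that for `L ≥ L₀`, every `P`, every `f : ZMod P → [0,1]` of
mean at least `δ` and every `A ⊆ [1, L]^k` of at least `ε L^k` elements some `1 ≤ m ≤ R` has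
`TT f A m ≥ (ε/2) δ^(k+1) P L^k`.

`CorD`: the same for dense sets `S ⊆ [1, R L]` of integers.

Proof of `GK`. Constants `M, N, C, J0, I`, `q_0 = 1`, `q_(i+1) = w q_i`, `N! ∣ w`, `w ≥ β/ι`, `β = 2C/L`, `J = J0 L`, `ι = κ₂/J`.
`Outer q = {r : ‖q n r/P‖ ≤ β for some 1 ≤ n ≤ N}`, `Inner q = {r : ‖q r/P‖ ≤ ι}`.
(1) (PIG) each `r` is in `Outer q_i \ Inner q_i` for at most two `i`, so some `i < I` has `∑_(r ∈ Outer \ Inner) |f^(r)|^2 ≤ 2/I`.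
(2) (SMO) `f_0(t) = E_(j,j' ≤ J) f(t + q(j - j'))`, `g = f - f_0`.
(3) (CSA) Cauchy-Schwarz over `a`. (4) (KER) the kernel. (5) (TEL) telescoping.
-/

namespace Pool.Agent.H99.DL

open Finset Pool.Agent.H61.HB

/-- the box `[1, L]^k` -/
def box (k L : ℕ) : Finset (Fin k → ℕ) := Fintype.piFinset fun _ => Icc 1 L

theorem card_box (k L : ℕ) : (box k L).card = L ^ k := by
  unfold box
  rw [Fintype.card_piFinset]
  simp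

/-- distance to the nearest integer -/
noncomputable def nrm (x : ℝ) : ℝ := |x - round x|

/-- `‖n r / P‖` -/
noncomputable def nr {P : ℕ} (n : ℕ) (r : ZMod P) : ℝ := nrm ((n : ℝ) * r.val / P)

/-- the outer set -/
def Outer {P : ℕ} (β : ℝ) (N q : ℕ) (r : ZMod P) : Prop := ∃ n, 1 ≤ n ∧ n ≤ N ∧ nr (q * n) r ≤ β

/-- the inner set -/
def Inner {P : ℕ} (ι : ℝ) (q : ℕ) (r : ZMod P) : Prop := nr q r ≤ ι

/-- the counting sum -/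
noncomputable def TT {P : ℕ} [NeZero P] {k : ℕ} (f : ZMod P → ℝ) (A : Finset (Fin k → ℕ)) (m : ℕ) : ℝ :=
  ∑ a ∈ A, ∑ t, f t * ∏ l, f (t + ((m * a l : ℕ) : ZMod P))

/-- the generic Khintchine theorem -/
def GK : Prop :=
  ∀ (k : ℕ) (δ ε : ℝ), 0 < δ → δ ≤ 1 → 0 < ε → ε ≤ 1 → ∃ R L₀ : ℕ, 0 < R ∧ ∀ L : ℕ, L₀ ≤ L →
    ∀ (P : ℕ) [NeZero P] (f : ZMod P → ℝ), (∀ t, 0 ≤ f t ∧ f t ≤ 1) → δ * P ≤ ∑ t, f t →
    ∀ A : Finset (Fin k → ℕ), A ⊆ box k L → ε * (L : ℝ) ^ k ≤ A.card →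
      ∃ m, 1 ≤ m ∧ m ≤ R ∧ ε / 2 * δ ^ (k + 1) * (P * (L : ℝ) ^ k) ≤ TT f A m

open Classical in
/-- the pairs `(t, a)` with all `t + m a_i` in `S` -/
noncomputable def cnfD {k : ℕ} (m : ℕ) (S : Finset ℕ) (A : Finset (Fin k → ℕ)) : Finset (ℕ × (Fin k → ℕ)) :=
  (S ×ˢ A).filter fun z => ∀ i, z.1 + m * z.2 i ∈ S

/-- the combinatorial input for sets of integers -/
def CorD : Prop :=
  ∀ (k : ℕ) (d ε : ℝ), 0 < d → d ≤ 1 → 0 < ε → ε ≤ 1 → ∃ (R : ℕ) (γ : ℝ) (L₀ : ℕ), 0 < R ∧ 0 < γ ∧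
    ∀ L : ℕ, L₀ ≤ L → ∀ S : Finset ℕ, S ⊆ Icc 1 (R * L) → d * ((R * L : ℕ) : ℝ) ≤ S.card →
      ∀ A : Finset (Fin k → ℕ), A ⊆ box k L → ε * (L : ℝ) ^ k ≤ A.card →
        ∃ m, 1 ≤ m ∧ m ≤ R ∧ γ * (L : ℝ) ^ (k + 1) ≤ (cnfD m S A).card

end Pool.Agent.H99.DL
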